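import Mathlib
import Pool.Agent.H25.Disk

namespace Pool.Agent.Results.MP_ab672e_co.Cex

open Metric

abbrev E := EuclideanSpace ℝ (Fin 2)

/-- the lattice points -/
def Lat : Set E := {x | ∀ i, ∃ z : ℤ, x i = z}

/-- the lattice points enclosed by the circle with centre `c` and radius `r` -/
def encl (c : E) (r : ℝ) : Set E := Lat ∩ ball c r

/-- the circle with centre `c` and radius `r` is an MC-circle of `n` -/
def IsMC (n : ℕ) (c : E) (r : ℝ) : Prop :=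
  0 < r ∧ (encl c r).ncard = n ∧ ∀ c' r', 0 < r' → (encl c' r').ncard = n → r' ≤ r

def LatSym (g : E ≃ᵢ E) : Prop := g '' Lat = Lat

noncomputable def pt (p : ℤ × ℤ) : E := !₂[(p.1 : ℝ), (p.2 : ℝ)]

lemma pt_inj : Function.Injective pt := fun p q h => by
  have h0 := congrArg (fun x : E => x 0) h
  have h1 := congrArg (fun x : E => x 1) h
  simp only [pt, Matrix.cons_val_zero, Matrix.cons_val_one, Int.cast_inj] at h0 h1
  exact Prod.ext h0 h1

lemma pt_mem (p : ℤ × ℤ) : pt p ∈ Lat := fun i => by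
  fin_cases i
  · exact ⟨p.1, rfl⟩
  · exact ⟨p.2, rfl⟩

lemma ex_pt {x : E} (h : x ∈ Lat) : ∃ p, x = pt p := by
  obtain ⟨a, ha⟩ := h 0
  obtain ⟨b, hb⟩ := h 1
  refine ⟨(a, b), ?_⟩
  ext i
  fin_cases i
  · exact ha
  · exact hb

lemma dsq (x y : E) : dist x y ^ 2 = (x 0 - y 0) ^ 2 + (x 1 - y 1) ^ 2 := by
  rw [EuclideanSpace.dist_sq_eq]
  simp [Real.dist_eq]

noncomputable def R : ℝ := √(120250 / 1156)

lemma R_pos : 0 < R := Real.sqrt_pos.2 (by norm_num)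

lemma R_sq : R ^ 2 = 120250 / 1156 := Real.sq_sqrt (by norm_num)

noncomputable def ctr (u w : ℤ) : E := !₂[(u : ℝ) / 34, (w : ℝ) / 34]

def nrm (u w : ℤ) (p : ℤ × ℤ) : ℤ := (34 * p.1 - u) ^ 2 + (34 * p.2 - w) ^ 2

lemma d_ctr (u w : ℤ) (p : ℤ × ℤ) : dist (pt p) (ctr u w) ^ 2 = (nrm u w p : ℝ) / 1156 := by
  rw [dsq]
  simp only [pt, ctr, nrm, Matrix.cons_val_zero, Matrix.cons_val_one]
  push_cast
  ring

lemma d_pt (p q : ℤ × ℤ) :
    dist (pt p) (pt q) ^ 2 = (((p.1 - q.1) ^ 2 + (p.2 - q.2) ^ 2 : ℤ) : ℝ) := by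
  rw [dsq]
  simp [pt]

lemma in_ball (u w : ℤ) (p : ℤ × ℤ) : pt p ∈ ball (ctr u w) R ↔ nrm u w p < 120250 := by
  rw [mem_ball, ← sq_lt_sq₀ dist_nonneg R_pos.le, d_ctr, R_sq,
    div_lt_div_iff_of_pos_right (by norm_num)]
  norm_cast

lemma in_sphere (u w : ℤ) (p : ℤ × ℤ) : pt p ∈ sphere (ctr u w) R ↔ nrm u w p = 120250 := by
  rw [mem_sphere, ← sq_eq_sq₀ dist_nonneg R_pos.le, d_ctr, R_sq, div_left_inj' (by norm_num)]
  norm_cast

noncomputable def box : Finset (ℤ × ℤ) := Finset.Icc (-10) 10 ×ˢ Finset.Icc (-10) 10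

lemma in_box {u w : ℤ} (hu : 0 ≤ u ∧ u ≤ 17) (hw : 0 ≤ w ∧ w ≤ 17) {p : ℤ × ℤ}
    (h : nrm u w p ≤ 120250) : p ∈ box := by
  simp only [nrm] at h
  have h1 : (34 * p.1 - u) ^ 2 < 347 ^ 2 := by nlinarith [sq_nonneg (34 * p.2 - w)]
  have h2 : (34 * p.2 - w) ^ 2 < 347 ^ 2 := by nlinarith [sq_nonneg (34 * p.1 - u)]
  have h3 := abs_lt.1 (abs_lt_of_sq_lt_sq h1 (by norm_num))
  have h4 := abs_lt.1 (abs_lt_of_sq_lt_sq h2 (by norm_num))
  simp only [box, Finset.mem_product, Finset.mem_Icc]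
  omega

lemma mc {u w : ℤ} (hu : 0 ≤ u ∧ u ≤ 17) (hw : 0 ≤ w ∧ w ≤ 17)
    (h : (box.filter (fun p => nrm u w p < 120250)).card = 322) : IsMC 322 (ctr u w) R := by
  refine ⟨R_pos, ?_, fun c r hr hc => ?_⟩
  · have : encl (ctr u w) R = pt '' (box.filter (fun p => nrm u w p < 120250) : Finset _) := by
      ext x
      constructor
      · rintro ⟨h1, h2⟩
        obtain ⟨p, rfl⟩ := ex_pt h1
        rw [in_ball] at h2
        exact ⟨p, by simpa using ⟨in_box hu hw h2.le, h2⟩, rfl⟩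
      · rintro ⟨p, hp, rfl⟩
        exact ⟨pt_mem p, (in_ball _ _ _).2 (Finset.mem_filter.1 hp).2⟩
    rw [this, Set.ncard_image_of_injective _ pt_inj, Set.ncard_coe_finset, h]
  · by_contra hlt
    obtain ⟨S, h1, h2⟩ := H25.Disk.Q_all (c 0) (c 1)
    have hsub : pt '' (S : Set _) ⊆ encl c r := by
      rintro _ ⟨p, hp, rfl⟩
      refine ⟨pt_mem p, lt_of_le_of_lt ?_ (not_le.1 hlt)⟩
      rw [← sq_le_sq₀ dist_nonneg R_pos.le, dsq, R_sq]
      have := h2 p hp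
      simp only [H25.Disk.Near] at this
      simp only [pt, Matrix.cons_val_zero, Matrix.cons_val_one]
      linarith
    have := Set.ncard_le_ncard hsub (Set.finite_of_ncard_ne_zero (by omega))
    rw [Set.ncard_image_of_injective _ pt_inj, Set.ncard_coe_finset] at this
    omega

lemma transfer (g : E ≃ᵢ E) (hg : LatSym g) {A B : Set E} (h : g '' A = B) (p q : ℤ × ℤ)
    (hp : pt p ∈ A) (hq : pt q ∈ A) : ∃ a b, pt a ∈ B ∧ pt b ∈ B ∧
      (a.1 - b.1) ^ 2 + (a.2 - b.2) ^ 2 = (p.1 - q.1) ^ 2 + (p.2 - q.2) ^ 2 := by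
  obtain ⟨a, ha⟩ := ex_pt (hg ▸ Set.mem_image_of_mem g (pt_mem p))
  obtain ⟨b, hb⟩ := ex_pt (hg ▸ Set.mem_image_of_mem g (pt_mem q))
  refine ⟨a, b, ha ▸ h ▸ Set.mem_image_of_mem g hp, hb ▸ h ▸ Set.mem_image_of_mem g hq, ?_⟩
  have e := g.dist_eq (pt p) (pt q)
  rw [ha, hb] at e
  have e1 := d_pt a b
  rw [e, d_pt] at e1
  exact_mod_cast e1.symm

theorem result : ∃ (n : ℕ) (c c' : E) (r r' : ℝ), IsMC n c r ∧ IsMC n c' r' ∧
    (¬ ∃ g : E ≃ᵢ E, LatSym g ∧ g '' sphere c r = sphere c' r') ∧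
    (¬ ∃ g : E ≃ᵢ E, LatSym g ∧ g '' encl c r = encl c' r') := by
  refine ⟨322, ctr 3 17, ctr 9 9, R, R, mc (by norm_num) (by norm_num) (by decide +kernel),
    mc (by norm_num) (by norm_num) (by decide +kernel), ?_, ?_⟩
  · rintro ⟨g, hg, h⟩
    obtain ⟨a, b, ha, hb, e⟩ := transfer g hg h (-10, -1) (-10, 2)
      ((in_sphere _ _ _).2 (by decide)) ((in_sphere _ _ _).2 (by decide))
    rw [in_sphere] at ha hb
    have key : ∀ a ∈ box.filter (fun p => nrm 9 9 p = 120250),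
        ∀ b ∈ box.filter (fun p => nrm 9 9 p = 120250),
          (a.1 - b.1) ^ 2 + (a.2 - b.2) ^ 2 ≠ 9 := by decide +kernel
    exact key a (Finset.mem_filter.2 ⟨in_box (by norm_num) (by norm_num) ha.le, ha⟩)
      b (Finset.mem_filter.2 ⟨in_box (by norm_num) (by norm_num) hb.le, hb⟩) e
  · rintro ⟨g, hg, h⟩
    obtain ⟨a, b, ha, hb, e⟩ := transfer g hg h (-9, -4) (9, 5)
      ⟨pt_mem _, (in_ball _ _ _).2 (by decide)⟩ ⟨pt_mem _, (in_ball _ _ _).2 (by decide)⟩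
    have ha := (in_ball _ _ _).1 ha.2
    have hb := (in_ball _ _ _).1 hb.2
    have h1 : 95000 < nrm 9 9 a := by
      simp only [nrm] at ha hb ⊢
      norm_num at e
      nlinarith [sq_nonneg (34 * a.1 - 9 + (34 * b.1 - 9)), sq_nonneg (34 * a.2 - 9 + (34 * b.2 - 9))]
    have h2 : 95000 < nrm 9 9 b := by
      simp only [nrm] at ha hb ⊢
      norm_num at e
      nlinarith [sq_nonneg (34 * a.1 - 9 + (34 * b.1 - 9)), sq_nonneg (34 * a.2 - 9 + (34 * b.2 - 9))]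
    have key : ∀ a ∈ box.filter (fun p => 95000 < nrm 9 9 p ∧ nrm 9 9 p < 120250),
        ∀ b ∈ box.filter (fun p => 95000 < nrm 9 9 p ∧ nrm 9 9 p < 120250),
          (a.1 - b.1) ^ 2 + (a.2 - b.2) ^ 2 ≠ 405 := by decide +kernel
    exact key a (Finset.mem_filter.2 ⟨in_box (by norm_num) (by norm_num) ha.le, h1, ha⟩)
      b (Finset.mem_filter.2 ⟨in_box (by norm_num) (by norm_num) hb.le, h2, hb⟩) e

end Pool.Agent.Results.MP_ab672e_co.Cex
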